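import Pool.Agent.Helper18.NF.Stmts2

set_option autoImplicit false

namespace Pool.Agent.Helper18.NF

open Polynomial

/-- there is a large field with a generic point -/
theorem nln_field (k : Type) [Field k] [CharZero k] (a b : k) :
    ∃ (F : Type) (_ : Field F) (_ : CharZero F) (_ : Algebra k F) (x y : F),
      Transcendental k x ∧ Eq3 a b x y := by
  let F := AlgebraicClosure (FractionRing k[X])
  have hinj : Function.Injective (algebraMap k[X] F) := by
    rw [IsScalarTower.algebraMap_eq k[X] (FractionRing k[X]) F]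
    exact (algebraMap (FractionRing k[X]) F).injective.comp
      (IsFractionRing.injective k[X] (FractionRing k[X]))
  have hx : Transcendental k (algebraMap k[X] F X) :=
    (transcendental_algebraMap_iff hinj).2 (transcendental_X k)
  have hc : CharZero F := charZero_of_injective_algebraMap (algebraMap k F).injective
  obtain ⟨y, hy⟩ := IsAlgClosed.exists_pow_nat_eq
    ((algebraMap k[X] F X) ^ 3 + algebraMap k F a * (algebraMap k[X] F X) + algebraMap k F b)
    (n := 2) (by norm_num)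
  exact ⟨F, inferInstance, hc, inferInstance, algebraMap k[X] F X, y, hx, hy⟩

section

variable {k F : Type} [Field k] [Field F] [Algebra k F]

/-- a polynomial of degree at most six vanishing at a transcendental element -/
theorem nln_coeff {x : F} (hx : Transcendental k x) (e0 e1 e2 e3 e4 e5 e6 : k)
    (h : algebraMap k F e0 + algebraMap k F e1 * x + algebraMap k F e2 * x ^ 2 +
      algebraMap k F e3 * x ^ 3 + algebraMap k F e4 * x ^ 4 + algebraMap k F e5 * x ^ 5 +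
      algebraMap k F e6 * x ^ 6 = 0) : e3 = 0 ∧ e4 = 0 ∧ e5 = 0 ∧ e6 = 0 := by
  have h1 : (C e0 + C e1 * X + C e2 * X ^ 2 + C e3 * X ^ 3 + C e4 * X ^ 4 + C e5 * X ^ 5 +
      C e6 * X ^ 6 : k[X]) = 0 := by
    apply transcendental_iff.1 hx
    simpa using h
  have h2 : ∀ i, (C e0 + C e1 * X + C e2 * X ^ 2 + C e3 * X ^ 3 + C e4 * X ^ 4 + C e5 * X ^ 5 +
      C e6 * X ^ 6 : k[X]).coeff i = 0 := fun i => by rw [h1, coeff_zero]
  refine ⟨?_, ?_, ?_, ?_⟩
  · have := h2 3
    simpa [coeff_X_pow, coeff_C, coeff_X] using this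
  · have := h2 4
    simpa [coeff_X_pow, coeff_C, coeff_X] using this
  · have := h2 5
    simpa [coeff_X_pow, coeff_C, coeff_X] using this
  · have := h2 6
    simpa [coeff_X_pow, coeff_C, coeff_X] using this

/-- `x` is algebraic if the duplicate is -/
theorem nln_trans {a b : k} {x x2 : F} (hx : Transcendental k x)
    (h : x2 * (4 * (x ^ 3 + algebraMap k F a * x + algebraMap k F b)) =
      x ^ 4 - 2 * algebraMap k F a * x ^ 2 - 8 * algebraMap k F b * x + algebraMap k F a ^ 2) :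
    Transcendental k x2 := by
  intro h2
  apply hx
  let M := algebraicClosure k F
  have hM : x2 ∈ M := mem_algebraicClosure_iff.2 h2
  have hint : IsIntegral M x := by
    refine ⟨X ^ 4 + (C (-(4 * (⟨x2, hM⟩ : M))) * X ^ 3 + C (-(2 * algebraMap k M a)) * X ^ 2 +
      C (-(8 * algebraMap k M b) - 4 * (⟨x2, hM⟩ : M) * algebraMap k M a) * X +
      C (algebraMap k M a ^ 2 - 4 * (⟨x2, hM⟩ : M) * algebraMap k M b)), ?_, ?_⟩
    · apply monic_X_pow_add
      compute_degree!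
    · have e1 : algebraMap M F (⟨x2, hM⟩ : M) = x2 := rfl
      have e2 : ∀ z : k, algebraMap M F (algebraMap k M z) = algebraMap k F z := fun z =>
        (IsScalarTower.algebraMap_apply k M F z).symm
      simp only [eval₂_add, eval₂_mul, eval₂_pow, eval₂_X, eval₂_C]
      simp only [map_sub, map_neg, map_mul, map_pow, map_ofNat, e1, e2]
      linear_combination -h
  have : Algebra.IsAlgebraic k M := algebraicClosure.isAlgebraic k F
  have : Algebra.IsIntegral k M := Algebra.isAlgebraic_iff_isIntegral.1 this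
  exact (isIntegral_trans (R := k) (A := M) x hint).isAlgebraic

/-- doubling, without denominators -/
theorem nln_double [CharZero F] {a b : k} (hΔ : 4 * a ^ 3 + 27 * b ^ 2 ≠ 0) {x y : F}
    (h : Eq3 a b x y) (hy : y ≠ 0) : ∃ (x₃ y₃ : F) (h₃ : Eq3 a b x₃ y₃),
      2 • EP.pt hΔ x y h = EP.pt hΔ x₃ y₃ h₃ ∧
      x₃ * (4 * (x ^ 3 + algebraMap k F a * x + algebraMap k F b)) =
      x ^ 4 - 2 * algebraMap k F a * x ^ 2 - 8 * algebraMap k F b * x + algebraMap k F a ^ 2 := by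
  obtain ⟨x₃, y₃, h₃, h1, h2, _⟩ := EP.add_self hΔ h hy
  refine ⟨x₃, y₃, h₃, by rw [two_nsmul, h1], ?_⟩
  have h4 : y ^ 2 = x ^ 3 + algebraMap k F a * x + algebraMap k F b := h
  have h5 : x₃ * (4 * y ^ 2) = (3 * x ^ 2 + algebraMap k F a) ^ 2 - 8 * x * y ^ 2 := by
    rw [h2]
    field_simp
    ring
  rw [h4] at h5
  rw [h5]
  ring

end

theorem st_NLN (_ : ST_ADX) : ST_NLN := by
  intro k _ _ a b hΔ n hn A B hAB hdeg hlc hM
  by_contra hB
  have hB0 : B.natDegree = 0 := by omega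
  have hA1 : A.natDegree = 1 := by omega
  obtain ⟨β, hβ⟩ : ∃ β, B = C β := ⟨_, eq_C_of_natDegree_eq_zero hB0⟩
  obtain ⟨α, γ, hα⟩ : ∃ α γ, A = C α * X + C γ :=
    ⟨A.coeff 1, A.coeff 0, eq_X_add_C_of_natDegree_le_one (by omega)⟩
  have hα0 : α ≠ 0 := by
    intro h0
    rw [hα, h0] at hA1
    simp at hA1
  have hn0 : (n : k) ≠ 0 := by
    have : n ≠ 0 := by omega
    exact_mod_cast this
  have hβα : (n : k) ^ 2 * α = β := by
    rw [hβ, hα, leadingCoeff_C, leadingCoeff_linear hα0] at hlc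
    exact hlc
  have hβ0 : β ≠ 0 := by
    rw [← hβα]
    exact mul_ne_zero (pow_ne_zero _ hn0) hα0
  obtain ⟨r, hr⟩ : ∃ r, r = α / β := ⟨_, rfl⟩
  obtain ⟨c, hc⟩ : ∃ c, c = γ / β := ⟨_, rfl⟩
  have hrn : r * (n : k) ^ 2 = 1 := by
    rw [hr, ← hβα]
    field_simp
  have hr0 : r ≠ 0 := by
    intro h0
    rw [h0, zero_mul] at hrn
    exact zero_ne_one hrn
  obtain ⟨F, hF, hF0, hF1, x, y, hx, h⟩ := nln_field k a b
  have hmul : ∀ (x y : F) (h : Eq3 a b x y), Transcendental k x → ∃ (x' y' : F)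
      (h' : Eq3 a b x' y'), n • EP.pt hΔ x y h = EP.pt hΔ x' y' h' ∧
        x' = algebraMap k F r * x + algebraMap k F c := by
    intro x y h hx
    obtain ⟨x', y', h', h1, h2⟩ := hM hΔ F x y h hx
    refine ⟨x', y', h', h1, ?_⟩
    rw [hβ, hα] at h2
    simp only [map_add, map_mul, aeval_C, aeval_X] at h2
    have h3 : algebraMap k F β ≠ 0 := by
      rw [Ne, map_eq_zero]
      exact hβ0
    rw [hr, hc, map_div₀, map_div₀]
    field_simp
    rw [← h2]
  obtain ⟨x1, y1, h1, hP1, hx1⟩ := hmul x y h hx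
  have hy : y ≠ 0 := by
    intro hy0
    have h2 : y ^ 2 = x ^ 3 + algebraMap k F a * x + algebraMap k F b := h
    have h3 := nln_coeff hx b a 0 1 0 0 0 (by
      rw [hy0] at h2
      simp only [map_zero, map_one]
      linear_combination -h2)
    exact one_ne_zero h3.1
  have hy1 : y1 ≠ 0 := by
    intro hy0
    have h2 : y1 ^ 2 = x1 ^ 3 + algebraMap k F a * x1 + algebraMap k F b := h1
    have h3 := nln_coeff hx (c ^ 3 + a * c + b) (3 * r * c ^ 2 + a * r) (3 * r ^ 2 * c) (r ^ 3)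
      0 0 0 (by
        rw [hy0, hx1] at h2
        simp only [map_zero, map_add, map_mul, map_pow, map_ofNat]
        linear_combination -h2)
    exact pow_ne_zero 3 hr0 h3.1
  obtain ⟨x2, y2, h2, hP2, hx2⟩ := nln_double hΔ h hy
  obtain ⟨x4, y4, h4, hP4, hx4⟩ := nln_double hΔ h1 hy1
  have hx2t := nln_trans hx hx2
  obtain ⟨x3, y3, h3, hP3, hx3⟩ := hmul x2 y2 h2 hx2t
  have h34 : x3 = x4 := by
    have h5 : EP.pt hΔ x3 y3 h3 = EP.pt hΔ x4 y4 h4 := by
      rw [← hP3, ← hP2, ← hP4, ← hP1, smul_comm]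
    exact (EP.pt_inj hΔ h5).1
  set a' := algebraMap k F a with ha'
  set b' := algebraMap k F b with hb'
  set r' := algebraMap k F r with hr'
  set c' := algebraMap k F c with hc'
  have key : (x1 ^ 4 - 2 * a' * x1 ^ 2 - 8 * b' * x1 + a' ^ 2) * (x ^ 3 + a' * x + b') =
      (r' * (x ^ 4 - 2 * a' * x ^ 2 - 8 * b' * x + a' ^ 2) + 4 * c' * (x ^ 3 + a' * x + b')) *
        (x1 ^ 3 + a' * x1 + b') := by
    rw [← hx4, ← h34, hx3, ← hx2]
    ring
  rw [hx1] at key
  obtain ⟨_, q4, q5, q6⟩ := nln_coeff hx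
    ((c ^ 4 - 2 * a * c ^ 2 - 8 * b * c + a ^ 2) * b - (a ^ 2 * r + 4 * b * c) * (c ^ 3 + a * c + b))
    ((c ^ 4 - 2 * a * c ^ 2 - 8 * b * c + a ^ 2) * a +
      (4 * r * c ^ 3 - 4 * a * r * c - 8 * b * r) * b -
      ((4 * a * c - 8 * b * r) * (c ^ 3 + a * c + b) +
        (a ^ 2 * r + 4 * b * c) * (3 * r * c ^ 2 + a * r)))
    ((4 * r * c ^ 3 - 4 * a * r * c - 8 * b * r) * a + (6 * r ^ 2 * c ^ 2 - 2 * a * r ^ 2) * b -
      (-2 * a * r * (c ^ 3 + a * c + b) + (4 * a * c - 8 * b * r) * (3 * r * c ^ 2 + a * r) +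
        (a ^ 2 * r + 4 * b * c) * (3 * r ^ 2 * c)))
    ((c ^ 4 - 2 * a * c ^ 2 - 8 * b * c + a ^ 2) + (6 * r ^ 2 * c ^ 2 - 2 * a * r ^ 2) * a +
      4 * r ^ 3 * c * b - (4 * c * (c ^ 3 + a * c + b) + -2 * a * r * (3 * r * c ^ 2 + a * r) +
        (4 * a * c - 8 * b * r) * (3 * r ^ 2 * c) + (a ^ 2 * r + 4 * b * c) * r ^ 3))
    ((4 * r * c ^ 3 - 4 * a * r * c - 8 * b * r) + 4 * r ^ 3 * c * a + r ^ 4 * b -
      (r * (c ^ 3 + a * c + b) + 4 * c * (3 * r * c ^ 2 + a * r) + -2 * a * r * (3 * r ^ 2 * c) +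
        (4 * a * c - 8 * b * r) * r ^ 3))
    ((6 * r ^ 2 * c ^ 2 - 2 * a * r ^ 2) + r ^ 4 * a -
      (r * (3 * r * c ^ 2 + a * r) + 4 * c * (3 * r ^ 2 * c) + -2 * a * r * r ^ 3))
    (4 * r ^ 3 * c - (r * (3 * r ^ 2 * c) + 4 * c * r ^ 3)) (by
      simp only [map_add, map_sub, map_mul, map_pow, map_neg, map_ofNat, ← ha', ← hb', ← hr', ← hc']
      linear_combination key)
  have hc0 : c = 0 := by
    have : r ^ 3 * c = 0 := by linear_combination (-1 / 3 : k) * q6
    rcases mul_eq_zero.1 this with h5 | h5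
    · exact absurd h5 (pow_ne_zero _ hr0)
    · exact h5
  have hpow : ∀ m : ℕ, m ≠ 0 → r ^ m ≠ 1 := by
    intro m hm h5
    have h6 : ((n ^ (2 * m) : ℕ) : k) = 1 := by
      have h7 : (r * (n : k) ^ 2) ^ m = 1 := by rw [hrn, one_pow]
      rw [mul_pow, h5, one_mul, ← pow_mul] at h7
      exact_mod_cast h7
    have h8 : n ^ (2 * m) = 1 := by exact_mod_cast h6
    have h9 : 1 < n ^ (2 * m) := Nat.one_lt_pow (by omega) (by omega)
    omega
  rw [hc0] at q5 q4
  have ha0 : a = 0 := by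
    have h5 : r ^ 2 * (a * (r ^ 2 - 1)) = 0 := by linear_combination (1 / 3 : k) * q5
    rcases mul_eq_zero.1 h5 with h6 | h6
    · exact absurd h6 (pow_ne_zero _ hr0)
    · rcases mul_eq_zero.1 h6 with h7 | h7
      · exact h7
      · exact absurd (sub_eq_zero.1 h7) (hpow 2 (by norm_num))
  rw [ha0] at q4
  have hb0 : b = 0 := by
    have h5 : r * (b * (r ^ 3 - 1)) = 0 := by linear_combination (1 / 9 : k) * q4
    rcases mul_eq_zero.1 h5 with h6 | h6
    · exact absurd h6 hr0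
    · rcases mul_eq_zero.1 h6 with h7 | h7
      · exact h7
      · exact absurd (sub_eq_zero.1 h7) (hpow 3 (by norm_num))
  apply hΔ
  rw [ha0, hb0]
  ring

end Pool.Agent.Helper18.NF
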